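import Pool.Agent.TH316.FQ.Clo

set_option autoImplicit false

/-!
# The attainable set `E_2` of first eigenvalue and torsional rigidity is not closed

`E_d` is the set of the points `(λ₁(Ω), (λ₁(Ω) T(Ω))⁻¹)` for `Ω ⊆ ℝ^d` open with `0 < |Ω| ≤ 1`.
The set `E_2` is not closed in `ℝ²`.
-/

open MeasureTheory Metric Set

namespace Pool.Agent.Results.MP_f46d6a_an.NotClosedPlane

/-- smooth functions with compact support in `Ω` which do not vanish identically -/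
def TestFn {d : ℕ} (Ω : Set (EuclideanSpace ℝ (Fin d))) (u : EuclideanSpace ℝ (Fin d) → ℝ) : Prop :=
  ContDiff ℝ (⊤ : ℕ∞) u ∧ HasCompactSupport u ∧ tsupport u ⊆ Ω ∧ ∃ x, u x ≠ 0

/-- first eigenvalue of the Dirichlet Laplacian: the infimum of the Rayleigh quotients -/
noncomputable def lam {d : ℕ} (Ω : Set (EuclideanSpace ℝ (Fin d))) : ℝ :=
  sInf {r : ℝ | ∃ u, TestFn Ω u ∧ r = (∫ x, ‖gradient u x‖ ^ 2) / ∫ x, u x ^ 2}

/-- torsional rigidity: the supremum of `(∫ u)² / ∫ |∇u|²` -/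
noncomputable def tor {d : ℕ} (Ω : Set (EuclideanSpace ℝ (Fin d))) : ℝ :=
  sSup {r : ℝ | ∃ u, TestFn Ω u ∧ r = (∫ x, u x) ^ 2 / ∫ x, ‖gradient u x‖ ^ 2}

/-- the attainable set `E_d` -/
def E (d : ℕ) : Set (ℝ × ℝ) :=
  {p : ℝ × ℝ | ∃ Ω : Set (EuclideanSpace ℝ (Fin d)), IsOpen Ω ∧ 0 < volume Ω ∧ volume Ω ≤ 1 ∧
    p = (lam Ω, (lam Ω * tor Ω)⁻¹)}

theorem result : ¬ IsClosed (E 2) := Pool.Agent.TH316.FQ.not_closed_pl

end Pool.Agent.Results.MP_f46d6a_an.NotClosedPlane
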